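import Pool.Agent.W2helper31.GP.Stm4
import Pool.Agent.W2helper88.GP.RMom

/-!
# Project GP: piece ROT (rotation invariance of the standard normal law of the plane)
-/

set_option autoImplicit false

open MeasureTheory ProbabilityTheory
open scoped ENNReal NNReal

namespace Pool.Agent.W2helper82.GP

open Pool.Agent.W2helper31.GP

/-- the matrix of the rotation -/
noncomputable def rm (f : ℝ) : Matrix (Fin 2) (Fin 2) ℝ :=
  !![Real.cos f, -Real.sin f; Real.sin f, Real.cos f]

lemma rm_det (f : ℝ) : (rm f).det = 1 := by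
  unfold rm
  rw [Matrix.det_fin_two_of]
  nlinarith [Real.sin_sq_add_cos_sq f]

lemma rot_eq (f : ℝ) : rot f = Matrix.toLin' (rm f) := by
  funext x
  unfold rot rm
  ext i
  fin_cases i
  · simp [Matrix.toLin'_apply, Matrix.mulVec, dotProduct, Fin.sum_univ_two]
    ring
  · simp [Matrix.toLin'_apply, Matrix.mulVec, dotProduct, Fin.sum_univ_two]

lemma rot_vol (f : ℝ) : (volume : Measure (Fin 2 → ℝ)).map (rot f) = volume := by
  rw [rot_eq, Real.map_matrix_volume_pi_eq_smul_volume_pi (by rw [rm_det]; norm_num), rm_det]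
  simp

lemma rot_meas (f : ℝ) : Measurable (rot f) := by
  rw [rot_eq]
  exact (LinearMap.continuous_of_finiteDimensional _).measurable

lemma rot_dens (f : ℝ) (x : Fin 2 → ℝ) :
    ∏ j, gaussianPDFReal 0 1 (rot f x j) = ∏ j, gaussianPDFReal 0 1 (x j) := by
  rw [Fin.prod_univ_two, Fin.prod_univ_two]
  unfold gaussianPDFReal rot
  have h1 : ∀ c a b : ℝ, c * Real.exp a * (c * Real.exp b) = c * c * Real.exp (a + b) := by
    intro c a b
    rw [Real.exp_add]
    ring
  rw [h1, h1]
  congr 2
  simp only [Matrix.cons_val_zero, Matrix.cons_val_one, sub_zero]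
  linear_combination (-(x 0 ^ 2 + x 1 ^ 2) / (2 * ((1 : ℝ≥0) : ℝ))) * Real.sin_sq_add_cos_sq f

theorem p_ROT : P_ROT := by
  intro f
  have hg := Pool.Agent.W2helper88.GP.gam_eq 2
  have hρ : Measurable (fun x : Fin 2 → ℝ => ENNReal.ofReal (∏ j, gaussianPDFReal 0 1 (x j))) := by
    apply Measurable.ennreal_ofReal
    exact Finset.measurable_prod _ fun j _ =>
      (measurable_gaussianPDFReal 0 1).comp (measurable_pi_apply j)
  ext s hs
  rw [Measure.map_apply (rot_meas f) hs, hg, withDensity_apply _ ((rot_meas f) hs),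
    withDensity_apply _ hs]
  conv_rhs => rw [← rot_vol f]
  rw [setLIntegral_map hs hρ (rot_meas f)]
  simp only [rot_dens]

end Pool.Agent.W2helper82.GP
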